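import Pool.Agent.Helper94.LK.Spec

/-! Common lemmas on the bilinear forms of kernels. -/

set_option autoImplicit false

open MeasureTheory Filter Topology Set

namespace Pool.Agent.Helper6.LK

open Pool.Agent.Helper94.LK

lemma bil_add_left {G : ℝ → ℝ → ℝ} {M : ℝ} (hK : KerBdd G M) {f g h : ℝ → ℝ}
    (hf : MemLp f 2 volume) (hg : MemLp g 2 volume) (hh : MemLp h 2 volume) :
    Bil G (fun s => f s + g s) h = Bil G f h + Bil G g h := by
  rw [Bil, Bil, Bil, ← integral_add (hK.int f h hf hh) (hK.int g h hg hh)]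
  congr 1
  ext z
  ring

lemma bil_add_right {G : ℝ → ℝ → ℝ} {M : ℝ} (hK : KerBdd G M) {f g h : ℝ → ℝ}
    (hf : MemLp f 2 volume) (hg : MemLp g 2 volume) (hh : MemLp h 2 volume) :
    Bil G h (fun s => f s + g s) = Bil G h f + Bil G h g := by
  rw [Bil, Bil, Bil, ← integral_add (hK.int h f hh hf) (hK.int h g hh hg)]
  congr 1
  ext z
  ring

lemma bil_smul_left (G : ℝ → ℝ → ℝ) (c : ℝ) (f h : ℝ → ℝ) :
    Bil G (fun s => c * f s) h = c * Bil G f h := by
  rw [Bil, Bil, ← integral_const_mul]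
  congr 1
  ext z
  ring

lemma bil_smul_right (G : ℝ → ℝ → ℝ) (c : ℝ) (f h : ℝ → ℝ) :
    Bil G f (fun s => c * h s) = c * Bil G f h := by
  rw [Bil, Bil, ← integral_const_mul]
  congr 1
  ext z
  ring

lemma bil_comm {G : ℝ → ℝ → ℝ} (hG : ∀ s s', G s s' = G s' s) (f h : ℝ → ℝ) :
    Bil G f h = Bil G h f := by
  rw [Bil, Bil, Measure.volume_eq_prod, ← integral_prod_swap]
  congr 1
  ext z
  simp only [Prod.fst_swap, Prod.snd_swap]
  rw [hG]
  ring

lemma bil_neg {G : ℝ → ℝ → ℝ} (hG : ∀ s s', G (-s) (-s') = G s s') (f h : ℝ → ℝ) :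
    Bil G (fun s => f (-s)) (fun s => h (-s)) = Bil G f h := by
  rw [Bil, Bil, ← integral_neg_eq_self (μ := (volume : Measure (ℝ × ℝ)))]
  congr 1
  ext z
  simp only [Prod.fst_neg, Prod.snd_neg, neg_neg]
  rw [hG]

/-- reflecting the second variable -/
lemma bil_neg_right (G : ℝ → ℝ → ℝ) (f h : ℝ → ℝ) :
    Bil G f (fun s => h (-s)) = ∫ z : ℝ × ℝ, G z.1 (-z.2) * (f z.1 * h z.2) := by
  have hmp : MeasurePreserving (Prod.map (id : ℝ → ℝ) (fun x : ℝ => -x))
      (volume : Measure (ℝ × ℝ)) (volume : Measure (ℝ × ℝ)) :=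
    (MeasurePreserving.id volume).prod (Measure.measurePreserving_neg volume)
  have hme : MeasurableEmbedding (Prod.map (id : ℝ → ℝ) (fun x : ℝ => -x)) :=
    ((MeasurableEquiv.refl ℝ).prodCongr (MeasurableEquiv.neg ℝ)).measurableEmbedding
  rw [Bil, ← hmp.integral_comp hme]
  congr 1
  ext z
  simp

lemma ae_ne : ∀ᵐ z : ℝ × ℝ, z.1 ≠ z.2 := by
  rw [ae_iff]
  simp only [not_not]
  have hs : MeasurableSet {z : ℝ × ℝ | z.1 = z.2} := measurableSet_eq_fun measurable_fst measurable_snd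
  rw [Measure.volume_eq_prod, Measure.measure_prod_null hs]
  refine Filter.Eventually.of_forall fun x => ?_
  have : Prod.mk x ⁻¹' {z : ℝ × ℝ | z.1 = z.2} = {x} := by
    ext y; simp [eq_comm]
  show volume (Prod.mk x ⁻¹' {z : ℝ × ℝ | z.1 = z.2}) = 0
  rw [this]; simp

lemma GC_comm (γ : ℝ → E2) (s s' : ℝ) : GC γ s s' = GC γ s' s := by
  rw [GC, GC, norm_sub_rev]

lemma GS_comm (s s' : ℝ) : GS s s' = GS s' s := by
  rw [GS, GS, abs_sub_comm]

lemma tent_nonneg (m w s : ℝ) : 0 ≤ tent m w s := le_max_left _ _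

lemma tent_le_one (m : ℝ) {w : ℝ} (hw : 0 < w) (s : ℝ) : tent m w s ≤ 1 := by
  rw [tent]
  apply max_le zero_le_one
  have := div_nonneg (abs_nonneg (s - m)) hw.le
  linarith

lemma tent_eq_zero {m w s : ℝ} (hw : 0 < w) (h : w ≤ |s - m|) : tent m w s = 0 := by
  rw [tent]
  apply max_eq_left
  rw [sub_nonpos, le_div_iff₀ hw]
  linarith

lemma tent_neg (m w s : ℝ) : tent m w (-s) = tent (-m) w s := by
  rw [tent, tent]
  congr 3
  rw [← abs_neg]
  congr 1
  ring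

lemma tent_ge {m w s : ℝ} (hw : 2 ≤ w) (h : |s - m| ≤ 1) : 1 / 2 ≤ tent m w s := by
  rw [tent]
  refine le_max_of_le_right ?_
  have h1 : |s - m| / w ≤ 1 / 2 := by
    rw [div_le_iff₀ (by linarith)]
    linarith
  linarith

lemma N_smul (c : ℝ) (f : ℝ → ℝ) : N (fun s => c * f s) = c ^ 2 * N f := by
  rw [N, N, ← integral_const_mul]
  congr 1
  ext s
  ring

/-- Pythagoras for disjoint supports -/
lemma N_add {f g : ℝ → ℝ} (hf : MemLp f 2 volume) (hg : MemLp g 2 volume)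
    (h : ∀ s, f s * g s = 0) : N (fun s => f s + g s) = N f + N g := by
  rw [N, N, N, ← integral_add hf.integrable_sq hg.integrable_sq]
  congr 1
  ext s
  have := h s
  linear_combination 2 * this

lemma N_neg (f : ℝ → ℝ) : N (fun s => f (-s)) = N f := by
  rw [N, N, ← integral_neg_eq_self (μ := (volume : Measure ℝ))]
  simp

/-- `kap` is antitone on `(0, ∞)` -/
lemma kap_anti (h1 : S_K1) {a b : ℝ} (ha : 0 < a) (hab : a ≤ b) : kap b ≤ kap a :=
  h1.anti.antitoneOn ha (lt_of_lt_of_le ha hab) hab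

lemma GS_le_GC (h1 : S_K1) (hG : S_GEO) {p L : ℝ} (hp : 0 < p) (hp1 : p ≤ 1) (hL : 0 < L)
    (s s' : ℝ) : GS s s' ≤ GC (crv p L) s s' := by
  rw [GS, GC]
  by_cases h : s = s'
  · subst h; simp
  · have h2 := hG.low p L s s' hp hp1 hL
    have h3 : 0 < 4 / 5 * p * |s - s'| := by
      have : 0 < |s - s'| := abs_pos.2 (sub_ne_zero.2 h)
      positivity
    exact kap_anti h1 (lt_of_lt_of_le h3 h2) (hG.lip p L s s' hp hp1 hL)

end Pool.Agent.Helper6.LK
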