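import Pool.Agent.Helper6.LK.Basic

/-! Part ONE: an odd trial function. -/

set_option autoImplicit false

open MeasureTheory Filter Topology Set

namespace Pool.Agent.Helper6.LK

open Pool.Agent.Helper94.LK

lemma tent_continuous (m w : ℝ) : Continuous (tent m w) := by
  unfold tent
  fun_prop

lemma tent_integrable (m : ℝ) {w : ℝ} (hw : 0 < w) : Integrable (tent m w) := by
  apply (tent_continuous m w).integrable_of_hasCompactSupport
  apply HasCompactSupport.of_support_subset_isCompact (isCompact_Icc (a := m - w) (b := m + w))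
  intro s hs
  by_contra hcon
  apply hs
  apply tent_eq_zero hw
  rw [mem_Icc, not_and_or, not_le, not_le] at hcon
  rcases hcon with h | h
  · rw [abs_sub_comm]
    exact le_trans (by linarith) (le_abs_self _)
  · exact le_trans (by linarith) (le_abs_self _)

lemma integral_tent (m w : ℝ) : ∫ s, tent m w s = ∫ s, tent 0 w s := by
  rw [← integral_sub_right_eq_self (fun s => tent 0 w s) m]
  congr 1
  ext s
  rw [tent, tent, sub_zero]

/-- the gain at a corner -/
noncomputable def gn (z : ℝ × ℝ) : ℝ :=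
  kap √(z.1 ^ 2 + z.2 ^ 2 + 8 / 5 * z.1 * z.2) - kap (z.1 + z.2)

lemma gn_pos (h1 : S_K1) {z : ℝ × ℝ} (h2 : 0 < z.1) (h3 : 0 < z.2) : 0 < gn z := by
  have hpos : 0 < √(z.1 ^ 2 + z.2 ^ 2 + 8 / 5 * z.1 * z.2) := Real.sqrt_pos.2 (by positivity)
  have h4 : √(z.1 ^ 2 + z.2 ^ 2 + 8 / 5 * z.1 * z.2) < z.1 + z.2 := by
    rw [Real.sqrt_lt' (by linarith)]
    nlinarith [mul_pos h2 h3]
  have h6 : (0 : ℝ) < z.1 + z.2 := by linarith
  exact sub_pos.2 (h1.anti hpos h6 h4)

lemma gn_cont (h1 : S_K1) : ContinuousOn gn (Icc (1 / 2 : ℝ) 1 ×ˢ Icc (1 / 2 : ℝ) 1) := by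
  have hpos : ∀ z ∈ (Icc (1 / 2 : ℝ) 1 ×ˢ Icc (1 / 2 : ℝ) 1),
      0 < √(z.1 ^ 2 + z.2 ^ 2 + 8 / 5 * z.1 * z.2) := by
    intro z hz
    have h2 := hz.1.1
    have h3 := hz.2.1
    have : 0 < z.1 := by linarith
    have : 0 < z.2 := by linarith
    exact Real.sqrt_pos.2 (by positivity)
  have hpos2 : ∀ z ∈ (Icc (1 / 2 : ℝ) 1 ×ˢ Icc (1 / 2 : ℝ) 1), 0 < z.1 + z.2 := by
    intro z hz
    have h2 := hz.1.1
    have h3 := hz.2.1
    linarith
  have c1 : ContinuousOn (fun z : ℝ × ℝ => √(z.1 ^ 2 + z.2 ^ 2 + 8 / 5 * z.1 * z.2))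
      (Icc (1 / 2 : ℝ) 1 ×ˢ Icc (1 / 2 : ℝ) 1) := by fun_prop
  have c2 : ContinuousOn (fun z : ℝ × ℝ => z.1 + z.2)
      (Icc (1 / 2 : ℝ) 1 ×ˢ Icc (1 / 2 : ℝ) 1) := by fun_prop
  exact (ContinuousOn.comp (g := kap) h1.cont c1 hpos).sub
    (ContinuousOn.comp (g := kap) h1.cont c2 hpos2)

lemma exists_gain (h1 : S_K1) : ∃ m : ℝ, 0 < m ∧ ∀ a ∈ Icc (1 / 2 : ℝ) 1, ∀ b ∈ Icc (1 / 2 : ℝ) 1,
    m ≤ gn (a, b) := by
  have hKc : IsCompact (Icc (1 / 2 : ℝ) 1 ×ˢ Icc (1 / 2 : ℝ) 1) := isCompact_Icc.prod isCompact_Icc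
  have hKne : (Icc (1 / 2 : ℝ) 1 ×ˢ Icc (1 / 2 : ℝ) 1).Nonempty :=
    ⟨(1, 1), by constructor <;> norm_num⟩
  obtain ⟨z, hz, hmin⟩ := hKc.exists_isMinOn hKne (gn_cont h1)
  refine ⟨gn z, gn_pos h1 (by have := hz.1.1; linarith) (by have := hz.2.1; linarith),
    fun a ha b hb => isMinOn_iff.1 hmin (a, b) ⟨ha, hb⟩⟩

theorem one_thm (h1 : S_K1) (h3 : S_K3) (hG : S_GEO) (hKB : S_KB) (hT : S_TENT) : S_ONE := by
  intro p₀ hp₀
  obtain ⟨m, hm, hgain⟩ := exists_gain h1
  set g := m / 16 with hg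
  have hg0 : 0 < g := by positivity
  set w := max 2 (2 / g) with hw
  have hw2 : 2 ≤ w := le_max_left _ _
  have hwg : 2 / g ≤ w := le_max_right _ _
  have hw0 : 0 < w := by linarith
  set I := ∫ s, tent 0 w s with hI
  have hlim : Tendsto (fun L : ℝ => kap (8 / 5 * p₀ * (L - w)) * I ^ 2) atTop (𝓝 0) := by
    have h2 : Tendsto (fun L : ℝ => 8 / 5 * p₀ * (L - w)) atTop atTop := by
      apply Tendsto.const_mul_atTop (by positivity)
      exact tendsto_atTop_add_const_right _ _ tendsto_id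
    have h4 := (h3.tend.comp h2).mul_const (I ^ 2)
    rw [zero_mul] at h4
    exact h4
  have hev := hlim.eventually_lt_const (show (0 : ℝ) < g / 2 by linarith)
  obtain ⟨L₁, hL₁⟩ := eventually_atTop.1 hev
  refine ⟨max L₁ (w + 1), fun L hL p hp => ?_⟩
  have hLL : L₁ ≤ L := (le_max_left _ _).trans hL
  have hLw : w + 1 ≤ L := (le_max_right _ _).trans hL
  have hL0 : 0 < L := by linarith
  have hp0 : 0 < p := lt_of_lt_of_le hp₀ hp.1
  have hp1 : p ≤ 1 := hp.2
  have hcl : ∀ s s', 4 / 5 * p * |s - s'| ≤ ‖crv p L s - crv p L s'‖ :=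
    fun s s' => hG.low p L s s' hp0 hp1 hL0
  have hK := hKB.kC (crv p L) (4 / 5 * p) (by positivity) (hG.conts p L hp0 hp1 hL0) hcl
  have hm1 : MemLp (tent L w) 2 volume := hT.mem L w hw0
  have hm2 : MemLp (tent (-L) w) 2 volume := hT.mem (-L) w hw0
  have hm2' : MemLp (fun s => (-1) * tent (-L) w s) 2 volume := hm2.const_mul (-1)
  have hsupp : ∀ s, tent L w s ≠ 0 → L - w < s ∧ s < L + w := by
    intro s hs
    by_contra hcon
    apply hs
    apply tent_eq_zero hw0
    rw [not_and_or, not_lt, not_lt] at hcon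
    rcases hcon with h | h
    · rw [abs_sub_comm]
      exact le_trans (by linarith) (le_abs_self _)
    · exact le_trans (by linarith) (le_abs_self _)
  have hsupp' : ∀ s, tent (-L) w s ≠ 0 → s < -(L - w) := by
    intro s hs
    rw [← tent_neg] at hs
    have := (hsupp _ hs).1
    linarith
  have hmf : MemLp (fun s => tent L w s + (-1) * tent (-L) w s) 2 volume := hm1.add hm2'
  refine ⟨fun s => tent L w s + (-1) * tent (-L) w s, hmf, ?_, ?_⟩
  · intro s
    show tent L w (-s) + (-1) * tent (-L) w (-s) = -(tent L w s + (-1) * tent (-L) w s)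
    rw [tent_neg, tent_neg, neg_neg]
    ring
  -- the norm
  have hN : N (fun s => tent L w s + (-1) * tent (-L) w s) = 2 * w / 3 + 2 * w / 3 := by
    rw [N_add hm1 hm2', N_smul, hT.nrm L w hw0, hT.nrm (-L) w hw0]
    · ring
    · intro s
      by_cases h : tent L w s = 0
      · rw [h, zero_mul]
      · have h2 : tent (-L) w s = 0 := by
          by_contra h4
          have := (hsupp s h).1
          have := hsupp' s h4
          linarith
        rw [h2]; ring
  -- the form
  set G := GC (crv p L) with hGdef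
  have hB : Bil G (fun s => tent L w s + (-1) * tent (-L) w s)
      (fun s => tent L w s + (-1) * tent (-L) w s) =
      2 * Bil G (tent L w) (tent L w) - 2 * Bil G (tent L w) (tent (-L) w) := by
    rw [bil_add_left hK hm1 hm2' hmf, bil_add_right hK hm1 hm2' hm1,
      bil_add_right hK hm1 hm2' hm2', bil_smul_left, bil_smul_left, bil_smul_right,
      bil_smul_right]
    have e1 : Bil G (tent (-L) w) (tent (-L) w) = Bil G (tent L w) (tent L w) := by
      have := bil_neg (G := G) (fun s s' => by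
        rw [hGdef, GC, GC]; rw [hG.refl p L s s' hp0 hp1 hL0]) (tent L w) (tent L w)
      simpa only [tent_neg] using this
    have e2 : Bil G (tent (-L) w) (tent L w) = Bil G (tent L w) (tent (-L) w) :=
      bil_comm (GC_comm _) _ _
    rw [e1, e2]
    ring
  -- the cross term
  have hcross : Bil G (tent L w) (tent (-L) w) ≤ kap (8 / 5 * p₀ * (L - w)) * I ^ 2 := by
    have hint : Integrable (fun z : ℝ × ℝ => tent L w z.1 * tent (-L) w z.2) :=
      (tent_integrable L hw0).mul_prod (tent_integrable (-L) hw0)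
    calc Bil G (tent L w) (tent (-L) w)
        ≤ ∫ z : ℝ × ℝ, kap (8 / 5 * p₀ * (L - w)) * (tent L w z.1 * tent (-L) w z.2) := by
          refine integral_mono (hK.int _ _ hm1 hm2) (hint.const_mul _) fun z => ?_
          simp only
          by_cases h : tent L w z.1 = 0
          · rw [h]; simp
          by_cases h' : tent (-L) w z.2 = 0
          · rw [h']; simp
          have hz1 := (hsupp _ h).1
          have hz2 := hsupp' _ h'
          refine mul_le_mul_of_nonneg_right ?_ (mul_nonneg (tent_nonneg _ _ _) (tent_nonneg _ _ _))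
          rw [hGdef, GC]
          refine kap_anti h1 (mul_pos (by positivity) (by linarith)) ?_
          refine le_trans ?_ (hcl z.1 z.2)
          have h4 : 2 * (L - w) ≤ |z.1 - z.2| := le_trans (by linarith) (le_abs_self _)
          have h5 : p₀ ≤ p := hp.1
          have h6 : 0 ≤ L - w := by linarith
          calc 8 / 5 * p₀ * (L - w) = 4 / 5 * p₀ * (2 * (L - w)) := by ring
            _ ≤ 4 / 5 * p * |z.1 - z.2| := by gcongr
      _ = kap (8 / 5 * p₀ * (L - w)) * I ^ 2 := by
          rw [integral_const_mul, Measure.volume_eq_prod, integral_prod_mul (tent L w)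
            (tent (-L) w), integral_tent L, integral_tent (-L), sq]
  have hcross' := lt_of_le_of_lt hcross (hL₁ L hLL)
  -- the diagonal term
  have hdiag : Bil GS (tent L w) (tent L w) + g ≤ Bil G (tent L w) (tent L w) := by
    have hiG := hK.int _ _ hm1 hm1
    have hiS := hKB.kS.int _ _ hm1 hm1
    have hsub : Bil G (tent L w) (tent L w) - Bil GS (tent L w) (tent L w) =
        ∫ z : ℝ × ℝ, (G z.1 z.2 - GS z.1 z.2) * (tent L w z.1 * tent L w z.2) := by
      rw [Bil, Bil, ← integral_sub hiG hiS]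
      congr 1
      ext z
      ring
    have hi : Integrable (fun z : ℝ × ℝ =>
        (G z.1 z.2 - GS z.1 z.2) * (tent L w z.1 * tent L w z.2)) := by
      refine (hiG.sub hiS).congr (Eventually.of_forall fun z => ?_)
      simp only [Pi.sub_apply]
      ring
    have hnn : ∀ z : ℝ × ℝ, 0 ≤ (G z.1 z.2 - GS z.1 z.2) * (tent L w z.1 * tent L w z.2) :=
      fun z => mul_nonneg (sub_nonneg.2 (GS_le_GC h1 hG hp0 hp1 hL0 _ _))
        (mul_nonneg (tent_nonneg _ _ _) (tent_nonneg _ _ _))
    set R : Set (ℝ × ℝ) := Icc (L - 1) (L - 1 / 2) ×ˢ Icc (L + 1 / 2) (L + 1) with hR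
    have hRm : MeasurableSet R := measurableSet_Icc.prod measurableSet_Icc
    have hRv : volume R = ENNReal.ofReal (1 / 4) := by
      rw [hR, Measure.volume_eq_prod, Measure.prod_prod, Real.volume_Icc, Real.volume_Icc,
        ← ENNReal.ofReal_mul (by linarith)]
      congr 1
      ring
    have hle : ∫ _z in R, (m / 4) ≤
        ∫ z in R, (G z.1 z.2 - GS z.1 z.2) * (tent L w z.1 * tent L w z.2) := by
      refine setIntegral_mono_on ?_ hi.integrableOn hRm fun z hz => ?_
      · rw [integrableOn_const_iff]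
        right; rw [hRv]; exact ENNReal.ofReal_lt_top
      · have ha := hz.1
        have hb := hz.2
        have e1 : G z.1 z.2 = kap √((L - z.1) ^ 2 + (z.2 - L) ^ 2 +
            8 / 5 * (L - z.1) * (z.2 - L)) := by
          rw [hGdef, GC, ← hG.corner p L z.1 z.2 hp0 hp1 hL0 (by linarith [ha.1])
            (by linarith [ha.2]) (by linarith [hb.1]), Real.sqrt_sq (norm_nonneg _)]
        have e2 : GS z.1 z.2 = kap ((L - z.1) + (z.2 - L)) := by
          rw [GS, abs_sub_comm, abs_of_nonneg (by linarith [ha.2, hb.1])]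
          congr 1
          ring
        rw [e1, e2]
        have h5 : m ≤ kap √((L - z.1) ^ 2 + (z.2 - L) ^ 2 + 8 / 5 * (L - z.1) * (z.2 - L)) -
            kap ((L - z.1) + (z.2 - L)) := hgain (L - z.1) ⟨by linarith [ha.2], by linarith [ha.1]⟩ (z.2 - L)
          ⟨by linarith [hb.1], by linarith [hb.2]⟩
        have h6 : 1 / 2 ≤ tent L w z.1 := tent_ge hw2 (by
          rw [abs_le]; constructor <;> linarith [ha.1, ha.2])
        have h7 : 1 / 2 ≤ tent L w z.2 := tent_ge hw2 (by
          rw [abs_le]; constructor <;> linarith [hb.1, hb.2])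
        have h8 : (1 / 4 : ℝ) ≤ tent L w z.1 * tent L w z.2 := by nlinarith
        calc m / 4 = m * (1 / 4) := by ring
          _ ≤ _ := mul_le_mul h5 h8 (by norm_num) (hm.le.trans h5)
    have hle2 := setIntegral_le_integral (s := R) hi (Eventually.of_forall hnn)
    have hval : ∫ _z in R, (m / 4) = g := by
      rw [setIntegral_const, Measure.real, hRv, ENNReal.toReal_ofReal (by norm_num), hg]
      simp only [smul_eq_mul]
      ring
    rw [hval] at hle
    linarith
  rw [hN, hB]
  have hform := hT.form L w hw0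
  rw [hT.nrm L w hw0] at hform
  have h2g : 1 / w ≤ g / 2 := by
    rw [div_le_div_iff₀ hw0 (by norm_num)]
    rw [div_le_iff₀ hg0] at hwg
    linarith
  linarith

end Pool.Agent.Helper6.LK
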