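import Pool.Agent.Helper6.LK.ONE

/-! Part THREEB: two even trial functions. -/

set_option autoImplicit false

open MeasureTheory Filter Topology Set

namespace Pool.Agent.Helper6.LK

open Pool.Agent.Helper94.LK

/-- the distance between the points at `s` and `-s'` -/
noncomputable def dop (p : ℝ) (z : ℝ × ℝ) : ℝ := √((z.1 - z.2) ^ 2 + 4 * z.1 * z.2 * p ^ 2)

/-- indicator of `[0, R]` -/
noncomputable def chi (R : ℝ) : ℝ → ℝ := (Icc (0 : ℝ) R).indicator fun _ => 1

lemma chi_memLp (R : ℝ) : MemLp (chi R) 2 volume := by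
  apply memLp_indicator_const 2 measurableSet_Icc
  right
  rw [Real.volume_Icc]
  exact ENNReal.ofReal_ne_top

lemma chi_nonneg (R s : ℝ) : 0 ≤ chi R s := by
  rw [chi]
  exact indicator_nonneg (fun _ _ => zero_le_one) s

lemma chi_measurable (R : ℝ) : Measurable (chi R) := measurable_const.indicator measurableSet_Icc

/-- the defect -/
noncomputable def dfc (R p : ℝ) (z : ℝ × ℝ) : ℝ :=
  (GS z.1 z.2 - kap (dop p z)) * (chi R z.1 * chi R z.2)

lemma dop_measurable (p : ℝ) : Measurable (dop p) := by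
  unfold dop
  fun_prop

lemma GS_measurable (h1 : S_K1) : Measurable fun z : ℝ × ℝ => GS z.1 z.2 := by
  unfold GS
  exact h1.meas.comp (by fun_prop)

lemma dfc_measurable (h1 : S_K1) (R p : ℝ) : Measurable (dfc R p) := by
  unfold dfc
  apply Measurable.mul
  · exact (GS_measurable h1).sub (h1.meas.comp (dop_measurable p))
  · exact ((chi_measurable R).comp measurable_fst).mul ((chi_measurable R).comp measurable_snd)

lemma dop_ge {p : ℝ} {z : ℝ × ℝ} (h1 : 0 ≤ z.1) (h2 : 0 ≤ z.2) : |z.1 - z.2| ≤ dop p z := by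
  rw [dop]
  apply Real.le_sqrt_of_sq_le
  rw [sq_abs]
  have : 0 ≤ 4 * z.1 * z.2 * p ^ 2 := by positivity
  linarith

lemma kap_dop_le (h1 : S_K1) {p : ℝ} {z : ℝ × ℝ} (hz1 : 0 ≤ z.1) (hz2 : 0 ≤ z.2)
    (hne : z.1 ≠ z.2) : kap (dop p z) ≤ GS z.1 z.2 :=
  kap_anti h1 (abs_pos.2 (sub_ne_zero.2 hne)) (dop_ge hz1 hz2)

lemma dfc_bounds (h1 : S_K1) (R p : ℝ) : ∀ᵐ z : ℝ × ℝ, 0 ≤ dfc R p z ∧
    dfc R p z ≤ GS z.1 z.2 * (chi R z.1 * chi R z.2) := by
  filter_upwards [ae_ne] with z hz
  by_cases h : z.1 ∈ Icc 0 R ∧ z.2 ∈ Icc 0 R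
  · have h2 := kap_dop_le h1 (p := p) h.1.1 h.2.1 hz
    have h3 : 0 ≤ chi R z.1 * chi R z.2 := mul_nonneg (chi_nonneg _ _) (chi_nonneg _ _)
    refine ⟨mul_nonneg (sub_nonneg.2 h2) h3, mul_le_mul_of_nonneg_right ?_ h3⟩
    have := h1.nonneg (dop p z)
    linarith
  · have h0 : chi R z.1 * chi R z.2 = 0 := by
      rw [not_and_or] at h
      rcases h with h | h
      · rw [chi, indicator_of_notMem h, zero_mul]
      · rw [chi, indicator_of_notMem h, mul_zero]
    rw [dfc, h0]; simp

lemma dfc_integrable (h1 : S_K1) (hKB : S_KB) (R p : ℝ) : Integrable (dfc R p) := by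
  have h2 := hKB.kS.int _ _ (chi_memLp R) (chi_memLp R)
  refine h2.mono (dfc_measurable h1 R p).aestronglyMeasurable ?_
  filter_upwards [dfc_bounds h1 R p] with z hz
  rw [Real.norm_eq_abs, Real.norm_eq_abs, abs_of_nonneg hz.1]
  exact hz.2.trans (le_abs_self _)

lemma dfc_tendsto (h1 : S_K1) (hKB : S_KB) (R : ℝ) :
    Tendsto (fun p => ∫ z, dfc R p z) (𝓝[>] 0) (𝓝 0) := by
  suffices key : Tendsto (fun p => ∫ z, dfc R p z) (𝓝[>] (0 : ℝ)) (𝓝 (∫ _z : ℝ × ℝ, (0 : ℝ))) by
    simpa using key
  apply tendsto_integral_filter_of_dominated_convergence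
    (fun z : ℝ × ℝ => GS z.1 z.2 * (chi R z.1 * chi R z.2))
  · exact Eventually.of_forall fun p => (dfc_measurable h1 R p).aestronglyMeasurable
  · refine Eventually.of_forall fun p => ?_
    filter_upwards [dfc_bounds h1 R p] with z hz
    rw [Real.norm_eq_abs, abs_of_nonneg hz.1]
    exact hz.2
  · exact hKB.kS.int _ _ (chi_memLp R) (chi_memLp R)
  · filter_upwards [ae_ne] with z hz
    by_cases h : z.1 ∈ Icc 0 R ∧ z.2 ∈ Icc 0 R
    · have hd0 : dop 0 z = |z.1 - z.2| := by
        rw [dop]; simp [Real.sqrt_sq_eq_abs]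
      have hpos : (0 : ℝ) < dop 0 z := by
        rw [hd0]; exact abs_pos.2 (sub_ne_zero.2 hz)
      have hc : ContinuousAt kap (dop 0 z) := h1.cont.continuousAt (Ioi_mem_nhds hpos)
      have hd : Continuous fun p : ℝ => dop p z := by unfold dop; fun_prop
      have h2 : Tendsto (fun p => kap (dop p z)) (𝓝[>] 0) (𝓝 (kap (dop 0 z))) :=
        (hc.tendsto.comp (hd.tendsto 0)).mono_left nhdsWithin_le_nhds
      have h3 : Tendsto (fun p => dfc R p z) (𝓝[>] 0)
          (𝓝 ((GS z.1 z.2 - kap (dop 0 z)) * (chi R z.1 * chi R z.2))) :=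
        (tendsto_const_nhds.sub h2).mul_const _
      rw [hd0] at h3
      have h4 : (GS z.1 z.2 - kap |z.1 - z.2|) * (chi R z.1 * chi R z.2) = 0 := by
        rw [GS]; ring
      rw [h4] at h3
      exact h3
    · have h0 : chi R z.1 * chi R z.2 = 0 := by
        rw [not_and_or] at h
        rcases h with h | h
        · rw [chi, indicator_of_notMem h, zero_mul]
        · rw [chi, indicator_of_notMem h, mul_zero]
      simp only [dfc, h0, mul_zero]
      exact tendsto_const_nhds

/-- the two tents on the half line, combined -/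
noncomputable def hf (w x y s : ℝ) : ℝ := x * tent w w s + y * tent (3 * w) w s

lemma hf_zero {w x y s : ℝ} (hw : 0 < w) (hs : s ∉ Icc 0 (4 * w)) : hf w x y s = 0 := by
  rw [mem_Icc, not_and_or, not_le, not_le] at hs
  have e1 : tent w w s = 0 := by
    apply tent_eq_zero hw
    rcases hs with h | h
    · rw [abs_sub_comm]; exact le_trans (by linarith) (le_abs_self _)
    · exact le_trans (by linarith) (le_abs_self _)
  have e2 : tent (3 * w) w s = 0 := by
    apply tent_eq_zero hw
    rcases hs with h | h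
    · rw [abs_sub_comm]; exact le_trans (by linarith) (le_abs_self _)
    · exact le_trans (by linarith) (le_abs_self _)
  rw [hf, e1, e2]; ring

lemma tent_disj {w : ℝ} (hw : 0 < w) (s : ℝ) : tent w w s * tent (3 * w) w s = 0 := by
  rcases le_total s (2 * w) with h | h
  · rw [tent_eq_zero (m := 3 * w) hw, mul_zero]
    rw [abs_sub_comm]; exact le_trans (by linarith) (le_abs_self _)
  · rw [tent_eq_zero (m := w) hw, zero_mul]
    exact le_trans (by linarith) (le_abs_self _)

lemma hf_abs {w : ℝ} (hw : 0 < w) (x y s : ℝ) : |hf w x y s| ≤ (|x| + |y|) * chi (4 * w) s := by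
  by_cases hs : s ∈ Icc 0 (4 * w)
  · rw [chi, indicator_of_mem hs, mul_one, hf]
    refine (abs_add_le _ _).trans ?_
    rw [abs_mul, abs_mul, abs_of_nonneg (tent_nonneg _ _ _), abs_of_nonneg (tent_nonneg _ _ _)]
    have h1 := tent_le_one w hw s
    have h2 := tent_le_one (3 * w) hw s
    have h3 := mul_le_mul_of_nonneg_left h1 (abs_nonneg x)
    have h4 := mul_le_mul_of_nonneg_left h2 (abs_nonneg y)
    linarith
  · rw [hf_zero hw hs, abs_zero]
    exact mul_nonneg (by positivity) (chi_nonneg _ _)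

lemma hf_memLp (hT : S_TENT) {w : ℝ} (hw : 0 < w) (x y : ℝ) : MemLp (hf w x y) 2 volume :=
  ((hT.mem w w hw).const_mul x).add ((hT.mem (3 * w) w hw).const_mul y)

lemma hf_N (hT : S_TENT) {w : ℝ} (hw : 0 < w) (x y : ℝ) :
    N (hf w x y) = (x ^ 2 + y ^ 2) * (2 * w / 3) := by
  have h := N_add ((hT.mem w w hw).const_mul x) ((hT.mem (3 * w) w hw).const_mul y) fun s => by
    have := tent_disj hw s
    linear_combination (x * y) * this
  have h2 : N (hf w x y) = N (fun s => x * tent w w s + y * tent (3 * w) w s) := rfl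
  rw [h2, h, N_smul, N_smul, hT.nrm w w hw, hT.nrm (3 * w) w hw]
  ring

/-- the straight form of the combination -/
lemma hf_GS (hKB : S_KB) (hT : S_TENT) {w : ℝ} (hw : 0 < w) (x y : ℝ) :
    (x ^ 2 + y ^ 2) * (w / 3 - 2 / w) ≤ Bil GS (hf w x y) (hf w x y) := by
  have hK := hKB.kS
  have m1 := hT.mem w w hw
  have m2 := hT.mem (3 * w) w hw
  have hexp : ∀ x y : ℝ, Bil GS (hf w x y) (hf w x y) =
      x ^ 2 * Bil GS (tent w w) (tent w w) + y ^ 2 * Bil GS (tent (3 * w) w) (tent (3 * w) w) +
        2 * (x * y) * Bil GS (tent w w) (tent (3 * w) w) := by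
    intro x y
    have e : Bil GS (hf w x y) (hf w x y) = Bil GS (fun s => x * tent w w s +
      y * tent (3 * w) w s) (fun s => x * tent w w s + y * tent (3 * w) w s) := rfl
    have mm : MemLp (fun s => x * tent w w s + y * tent (3 * w) w s) 2 volume :=
      (m1.const_mul x).add (m2.const_mul y)
    rw [e, bil_add_left hK (m1.const_mul x) (m2.const_mul y) mm,
      bil_add_right hK (m1.const_mul x) (m2.const_mul y) (m1.const_mul x),
      bil_add_right hK (m1.const_mul x) (m2.const_mul y) (m2.const_mul y),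
      bil_smul_left, bil_smul_left, bil_smul_left, bil_smul_left,
      bil_smul_right, bil_smul_right, bil_smul_right, bil_smul_right,
      bil_comm GS_comm (tent (3 * w) w) (tent w w)]
    ring
  have hp := hT.pos _ (hf_memLp hT hw x (-y))
  rw [hf_N hT hw, hexp] at hp
  have f1 := hT.form w w hw
  have f2 := hT.form (3 * w) w hw
  rw [hT.nrm w w hw] at f1
  rw [hT.nrm (3 * w) w hw] at f2
  rw [hexp]
  have g1 := mul_le_mul_of_nonneg_left f1 (sq_nonneg x)
  have g2 := mul_le_mul_of_nonneg_left f2 (sq_nonneg y)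
  have e2 : 2 / w = 2 * (1 / w) := by ring
  rw [e2]
  nlinarith

theorem threeb_thm (h1 : S_K1) (hG : S_GEO) (hKB : S_KB) (hT : S_TENT) : S_THREEB := by
  intro δ hδ
  -- choose `w`
  set w : ℝ := √(12 / δ) + 1 with hwdef
  have hw : 0 < w := by positivity
  have hw2 : 12 / δ ≤ w ^ 2 := by
    have h2 : 0 ≤ √(12 / δ) := Real.sqrt_nonneg _
    have h3 := Real.sq_sqrt (show 0 ≤ 12 / δ by positivity)
    rw [hwdef]; nlinarith
  have hw3 : 8 / w ≤ δ * (2 * w / 3) := by
    rw [div_le_iff₀ hδ] at hw2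
    rw [div_le_iff₀ hw]
    nlinarith
  -- choose `p₀`
  have hev := (dfc_tendsto h1 hKB (4 * w)).eventually_lt_const
    (show (0 : ℝ) < δ * w / 12 by positivity)
  have hev2 : ∀ᶠ p : ℝ in 𝓝[>] 0, p < 1 := nhdsWithin_le_nhds (Iio_mem_nhds one_pos)
  obtain ⟨p, hp⟩ := (hev.and (hev2.and self_mem_nhdsWithin)).exists
  obtain ⟨hpe, hp1, hp0⟩ := hp
  have hp0' : (0 : ℝ) < p := hp0
  refine ⟨p, hp0', hp1, 4 * w, fun L hL => ?_⟩
  have hL0 : 0 < L := by linarith
  have hK := hKB.kC (crv p L) (4 / 5 * p) (by positivity) (hG.conts p L hp0' hp1.le hL0)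
    fun s s' => hG.low p L s s' hp0' hp1.le hL0
  -- the even extensions
  have hm1 : MemLp (fun s => tent w w s + tent w w (-s)) 2 volume := by
    simp only [tent_neg]
    exact (hT.mem w w hw).add (hT.mem (-w) w hw)
  have hm2 : MemLp (fun s => tent (3 * w) w s + tent (3 * w) w (-s)) 2 volume := by
    simp only [tent_neg]
    exact (hT.mem (3 * w) w hw).add (hT.mem (-(3 * w)) w hw)
  have hrw : ∀ x y : ℝ, (fun s => x * (tent w w s + tent w w (-s)) +
      y * (tent (3 * w) w s + tent (3 * w) w (-s))) = fun s => hf w x y s + hf w x y (-s) := by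
    intro x y
    funext s
    rw [hf, hf]; ring
  have hmf : ∀ x y : ℝ, MemLp (hf w x y) 2 volume := hf_memLp hT hw
  have hmfn : ∀ x y : ℝ, MemLp (fun s => hf w x y (-s)) 2 volume := by
    intro x y
    have : (fun s => hf w x y (-s)) = fun s => x * tent (-w) w s + y * tent (-(3 * w)) w s := by
      funext s; rw [hf, tent_neg, tent_neg]
    rw [this]
    exact ((hT.mem (-w) w hw).const_mul x).add ((hT.mem (-(3 * w)) w hw).const_mul y)
  have hzero0 : ∀ x y : ℝ, hf w x y 0 = 0 := by
    intro x y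
    rw [hf, tent_eq_zero (m := w) hw (by rw [zero_sub, abs_neg]; exact le_abs_self _),
      tent_eq_zero (m := 3 * w) hw (by
        rw [zero_sub, abs_neg]; exact le_trans (by linarith) (le_abs_self _))]
    ring
  have hN : ∀ x y : ℝ, N (fun s => hf w x y s + hf w x y (-s)) =
      (x ^ 2 + y ^ 2) * (4 * w / 3) := by
    intro x y
    rw [N_add (hmf x y) (hmfn x y), N_neg, hf_N hT hw]
    · ring
    · intro s
      rcases lt_trichotomy s 0 with h | h | h
      · rw [hf_zero hw (s := s) (fun hc => absurd hc.1 (not_le.2 h)), zero_mul]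
      · subst h; rw [hzero0, zero_mul]
      · rw [hf_zero hw (s := -s) (fun hc => absurd hc.1 (by linarith)), mul_zero]
  refine ⟨fun s => tent w w s + tent w w (-s), fun s => tent (3 * w) w s + tent (3 * w) w (-s),
    hm1, hm2, fun s => by simp only [neg_neg]; ring, fun s => by simp only [neg_neg]; ring, ?_, ?_⟩
  · intro x y hxy
    simp only at hxy
    rw [hrw, hN] at hxy
    have h2 : x ^ 2 + y ^ 2 = 0 := by
      rcases mul_eq_zero.1 hxy with h | h
      · exact h
      · exact absurd h (by positivity)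
    constructor
    · exact pow_eq_zero_iff (two_ne_zero) |>.1 (by nlinarith [sq_nonneg x, sq_nonneg y])
    · exact pow_eq_zero_iff (two_ne_zero) |>.1 (by nlinarith [sq_nonneg x, sq_nonneg y])
  · intro x y
    rw [hrw, hN]
    set G := GC (crv p L) with hGdef
    set f := hf w x y with hfdef
    have hmm : MemLp (fun s => f s + f (-s)) 2 volume := (hmf x y).add (hmfn x y)
    have hB : Bil G (fun s => f s + f (-s)) (fun s => f s + f (-s)) =
        2 * Bil G f f + 2 * Bil G f (fun s => f (-s)) := by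
      rw [bil_add_left hK (hmf x y) (hmfn x y) hmm, bil_add_right hK (hmf x y) (hmfn x y) (hmf x y),
        bil_add_right hK (hmf x y) (hmfn x y) (hmfn x y)]
      have e1 : Bil G (fun s => f (-s)) (fun s => f (-s)) = Bil G f f :=
        bil_neg (fun s s' => by rw [hGdef, GC, GC, hG.refl p L s s' hp0' hp1.le hL0]) f f
      have e2 : Bil G (fun s => f (-s)) f = Bil G f (fun s => f (-s)) :=
        bil_comm (GC_comm _) _ _
      rw [e1, e2]; ring
    have hzero : ∀ s, f s ≠ 0 → s ∈ Icc 0 (4 * w) := by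
      intro s hs
      by_contra hcon
      exact hs (hf_zero hw hcon)
    have hBff : Bil G f f = Bil GS f f := by
      rw [Bil, Bil]
      congr 1
      ext z
      by_cases ha : f z.1 = 0
      · rw [ha]; ring
      by_cases hb : f z.2 = 0
      · rw [hb]; ring
      have ha' := hzero _ ha
      have hb' := hzero _ hb
      congr 1
      rw [hGdef, GC, GS, hG.arm1 p L z.1 z.2 hp0' hp1.le hL0 ha'.1 (ha'.2.trans hL) hb'.1
        (hb'.2.trans hL)]
    set c := (|x| + |y|) ^ 2 with hc
    have hcle : c ≤ 2 * (x ^ 2 + y ^ 2) := by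
      have e1 := sq_abs x
      have e2 := sq_abs y
      rw [hc]
      nlinarith [sq_nonneg (|x| - |y|)]
    have hBfn : Bil GS f f - c * ∫ z, dfc (4 * w) p z ≤ Bil G f (fun s => f (-s)) := by
      rw [bil_neg_right]
      have hi1 := hKB.kS.int f f (hmf x y) (hmf x y)
      have hi2 : Integrable (fun z : ℝ × ℝ => G z.1 (-z.2) * (f z.1 * f z.2)) := by
        have hmp : MeasurePreserving (Prod.map (id : ℝ → ℝ) (fun x : ℝ => -x))
            (volume : Measure (ℝ × ℝ)) (volume : Measure (ℝ × ℝ)) :=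
          (MeasurePreserving.id volume).prod (Measure.measurePreserving_neg volume)
        have hme : MeasurableEmbedding (Prod.map (id : ℝ → ℝ) (fun x : ℝ => -x)) :=
          ((MeasurableEquiv.refl ℝ).prodCongr (MeasurableEquiv.neg ℝ)).measurableEmbedding
        have := (hmp.integrable_comp_emb hme).2 (hK.int f (fun s => f (-s)) (hmf x y) (hmfn x y))
        refine this.congr (Eventually.of_forall fun z => ?_)
        simp
      have hi3 := (dfc_integrable h1 hKB (4 * w) p).const_mul c
      rw [sub_le_iff_le_add, ← integral_const_mul, ← integral_add hi2 hi3, Bil]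
      refine integral_mono_ae hi1 (hi2.add hi3) ?_
      filter_upwards [ae_ne, dfc_bounds h1 (4 * w) p] with z hz hd
      by_cases ha : f z.1 = 0
      · rw [ha]; simp only [zero_mul, mul_zero, zero_add]
        exact mul_nonneg (by positivity) hd.1
      by_cases hb : f z.2 = 0
      · rw [hb]; simp only [mul_zero, zero_add]
        exact mul_nonneg (by positivity) hd.1
      have ha' := hzero _ ha
      have hb' := hzero _ hb
      have e1 : G z.1 (-z.2) = kap (dop p z) := by
        rw [hGdef, GC, dop, ← hG.opp p L z.1 z.2 hp0' hp1.le hL0 ha'.1 (ha'.2.trans hL) hb'.1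
          (hb'.2.trans hL), Real.sqrt_sq (norm_nonneg _)]
      have e2 : dfc (4 * w) p z = GS z.1 z.2 - kap (dop p z) := by
        rw [dfc, chi, indicator_of_mem ha', indicator_of_mem hb']; ring
      have e3 : f z.1 * f z.2 ≤ c := by
        have a1 := hf_abs hw x y z.1
        have a2 := hf_abs hw x y z.2
        rw [chi, indicator_of_mem ha', mul_one] at a1
        rw [chi, indicator_of_mem hb', mul_one] at a2
        calc f z.1 * f z.2 ≤ |f z.1 * f z.2| := le_abs_self _
          _ = |f z.1| * |f z.2| := abs_mul _ _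
          _ ≤ (|x| + |y|) * (|x| + |y|) := mul_le_mul a1 a2 (abs_nonneg _) (by positivity)
          _ = c := by rw [hc]; ring
      have e4 : 0 ≤ dfc (4 * w) p z := hd.1
      rw [e1]
      have e5 : GS z.1 z.2 = kap (dop p z) + dfc (4 * w) p z := by rw [e2]; ring
      rw [e5]
      nlinarith
    have hGS := hf_GS hKB hT hw x y
    have hd0 : 0 ≤ ∫ z, dfc (4 * w) p z := by
      apply integral_nonneg_of_ae
      filter_upwards [dfc_bounds h1 (4 * w) p] with z hz using hz.1
    have hq : 0 ≤ x ^ 2 + y ^ 2 := by positivity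
    have hcd : c * ∫ z, dfc (4 * w) p z ≤ (x ^ 2 + y ^ 2) * (δ * w / 6) := by
      calc c * ∫ z, dfc (4 * w) p z ≤ 2 * (x ^ 2 + y ^ 2) * (δ * w / 12) :=
            mul_le_mul hcle hpe.le hd0 (by positivity)
        _ = _ := by ring
    rw [hB, hBff]
    have key : (1 - δ) * ((x ^ 2 + y ^ 2) * (4 * w / 3)) ≤
        4 * ((x ^ 2 + y ^ 2) * (w / 3 - 2 / w)) - 2 * ((x ^ 2 + y ^ 2) * (δ * w / 6)) := by
      have e6 : 2 / w = (8 / w) / 4 := by ring
      have e7 : (1 - δ) * (4 * w / 3) ≤ 4 * (w / 3 - 2 / w) - 2 * (δ * w / 6) := by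
        rw [e6]
        have : 0 ≤ δ * w := by positivity
        linarith
      have := mul_le_mul_of_nonneg_left e7 hq
      linarith
    linarith

end Pool.Agent.Helper6.LK
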